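import Pool.Agent.H7.GF.Targets3
import Pool.Agent.H7.GF.Basic

/-!
# MP_cd65c5_nt: quartic fields with a quadratic subfield
-/

set_option linter.unusedSectionVars false

open Polynomial NumberField Module IntermediateField
open Pool.Agent.H7.GF

namespace Pool.Agent.H97.GF

variable {K : Type} [Field K] [NumberField K]

theorem toQ_minpoly' (θ : 𝓞 K) : toQ (minpoly ℤ θ) = minpoly ℚ (θ : K) := by
  rw [minpoly.isIntegrallyClosed_eq_field_fractions' ℚ (RingOfIntegers.isIntegral_coe θ)]
  have h : minpoly ℤ ((algebraMap (𝓞 K) K) θ) = minpoly ℤ θ :=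
    minpoly.algebraMap_eq (RingOfIntegers.coe_injective) θ
  unfold toQ
  rw [← h]
  rfl

/-- a monic quadratic polynomial -/
theorem quad_eq {R : Type} [CommRing R] [Nontrivial R] (m : R[X]) (hm : m.Monic)
    (hd : m.natDegree = 2) : m = X ^ 2 + C (m.coeff 1) * X + C (m.coeff 0) := by
  have h := eq_pol (m := 1) m hm hd
  conv_lhs => rw [h]
  simp [pol]

theorem quad_mul {R : Type} [CommRing R] (α β α' β' : R) :
    (X ^ 2 + C α * X + C β) * (X ^ 2 + C α' * X + C β') =
      pol (m := 3) (β * β') ![α * β' + α' * β, α * α' + β + β', α + α'] := by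
  unfold pol
  rw [Fin.sum_univ_three]
  simp only [Matrix.cons_val_zero, Matrix.cons_val_one, Matrix.cons_val, Fin.val_zero, Fin.val_one,
    Fin.val_two, map_add, map_mul]
  ring

theorem pol_inj {R : Type} [CommRing R] {m : ℕ} {b b' : R} {a a' : Fin m → R}
    (h : pol b a = pol b' a') : b = b' ∧ a = a' := by
  constructor
  · have := congrArg (fun p : R[X] => p.coeff 0) h
    simpa only [pol_coeff_zero] using this
  · funext i
    have := congrArg (fun p : R[X] => p.coeff ((i : ℕ) + 1)) h
    simpa only [pol_coeff_succ] using this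

theorem lemA {F K : Type} [Field F] [CharZero F] [Field K] [Algebra F K] [FiniteDimensional F K]
    (θ : K) (h4 : (minpoly F θ).natDegree = 4) (hK : finrank F K = 4)
    (E : IntermediateField F K) (hE1 : E ≠ ⊥) (hE2 : E ≠ ⊤) :
    ∃ (s : E ≃ₐ[F] E) (α β : E), (minpoly F θ).map (algebraMap F E) =
      (X ^ 2 + C α * X + C β) * (X ^ 2 + C (s α) * X + C (s β)) ∧ (∀ z, s (s z) = z) ∧
      (∀ z, s z = z → z ∈ Set.range (algebraMap F E)) := by
  have hmul := Module.finrank_mul_finrank F E K
  rw [hK] at hmul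
  have hn1 : finrank F E ≠ 1 := fun h => hE1 (IntermediateField.finrank_eq_one_iff.1 h)
  have hn2 : finrank E K ≠ 1 := fun h => hE2 (IntermediateField.finrank_eq_one_iff_eq_top.1 h)
  have h2 : finrank F E = 2 ∧ finrank E K = 2 := by
    have hle : finrank F E ≤ 4 := Nat.le_of_dvd (by norm_num) ⟨_, hmul.symm⟩
    interval_cases h : finrank F E
    · omega
    · omega
    · omega
    · omega
    · omega
  have hq : Algebra.IsQuadraticExtension F E := ⟨h2.1⟩
  have hgal : IsGalois F E := inferInstance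
  have hcard : Nat.card (E ≃ₐ[F] E) = 2 := by
    rw [IsGalois.card_aut_eq_finrank, h2.1]
  obtain ⟨s, hs1, hs2⟩ := (Nat.card_eq_two_iff' (1 : E ≃ₐ[F] E)).1 hcard
  have hss : ∀ z, s (s z) = z := by
    intro z
    have := pow_card_eq_one' (x := s)
    rw [hcard, sq] at this
    exact congrArg (fun g : E ≃ₐ[F] E => g z) this
  have hfix : ∀ z, s z = z → z ∈ Set.range (algebraMap F E) := by
    intro z hz
    rw [IsGalois.mem_range_algebraMap_iff_fixed]
    intro g
    by_cases hg : g = 1
    · rw [hg]; rfl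
    · rw [hs2 g hg, hz]
  set m := minpoly E θ with hm
  have hint : IsIntegral E θ := IsIntegral.of_finite E θ
  have hmm : m.Monic := minpoly.monic hint
  have hmd : m.natDegree ≤ 2 := (minpoly.natDegree_le θ).trans h2.2.le
  set m' := m.map (s : E →+* E) with hm'
  have hmm' : m'.Monic := hmm.map _
  have hmd' : m'.natDegree = m.natDegree := hmm.natDegree_map _
  have hN : (m * m').Monic := hmm.mul hmm'
  have hNs : (m * m').map (s : E →+* E) = m * m' := by
    rw [Polynomial.map_mul, hm', Polynomial.map_map, mul_comm]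
    congr 1
    have : ((s : E →+* E).comp (s : E →+* E)) = RingHom.id E := by
      ext z
      simp [hss]
    rw [this, Polynomial.map_id]
  have hlift : m * m' ∈ Polynomial.lifts (algebraMap F E) := by
    rw [Polynomial.lifts_iff_coeff_lifts]
    intro n
    apply hfix
    have := congrArg (fun p : E[X] => p.coeff n) hNs
    simp only [Polynomial.coeff_map] at this
    exact this
  obtain ⟨N₀, hN1, hN2, hN3⟩ := Polynomial.lifts_and_natDegree_eq_and_monic hlift hN
  have hroot : aeval θ N₀ = 0 := by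
    have h1 : aeval θ (N₀.map (algebraMap F E)) = 0 := by
      rw [hN1, map_mul, hm, minpoly.aeval, zero_mul]
    rwa [Polynomial.aeval_map_algebraMap] at h1
  have hdvd := minpoly.dvd F θ hroot
  have hNd : N₀.natDegree = m.natDegree + m.natDegree := by
    rw [hN2, hmm.natDegree_mul hmm', hmd']
  have hge := Polynomial.natDegree_le_of_dvd hdvd hN3.ne_zero
  have hmd2 : m.natDegree = 2 := by omega
  have heq : minpoly F θ = N₀ := by
    symm
    refine Polynomial.eq_of_monic_of_dvd_of_natDegree_le (minpoly.monic (IsIntegral.of_finite F θ))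
      hN3 hdvd (by omega)
  refine ⟨s, m.coeff 1, m.coeff 0, ?_, hss, hfix⟩
  rw [heq, hN1]
  have e1 := quad_eq m hmm hmd2
  have e2 : m' = X ^ 2 + C (s (m.coeff 1)) * X + C (s (m.coeff 0)) := by
    rw [hm']
    conv_lhs => rw [e1]
    simp [Polynomial.map_add, Polynomial.map_mul, Polynomial.map_pow]
  rw [← e2, ← e1]

theorem i4a : T_I4A := by
  rintro b H a hb ha ⟨K, _, _, θ, hθ, hdeg, hno⟩
  have hnd : (pol b a).natDegree = 4 := pol_natDegree b a
  rw [hnd] at hdeg
  unfold NoInt at hno
  push Not at hno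
  obtain ⟨E, hE1, hE2⟩ := hno
  have hmin : minpoly ℚ (θ : K) = (pol b a).map (Int.castRingHom ℚ) := by
    rw [← toQ_minpoly', hθ]; rfl
  have h4 : (minpoly ℚ (θ : K)).natDegree = 4 := by
    rw [hmin, natDegree_map_eq_of_injective (RingHom.injective_int _), hnd]
  obtain ⟨s, α, β, hfac, hss, hfix⟩ := lemA (θ : K) h4 hdeg.symm E hE1 hE2
  rw [hmin, Polynomial.map_map] at hfac
  replace hfac : (pol b a).map (algebraMap ℤ E) =
      (X ^ 2 + C α * X + C β) * (X ^ 2 + C (s α) * X + C (s β)) := by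
    rw [← hfac]
    congr 1
    exact Subsingleton.elim _ _
  -- monic factors
  have hmon : ∀ x y : E, (X ^ 2 + C x * X + C y : E[X]).Monic := by
    intro x y
    have : (X ^ 2 + C x * X + C y : E[X]) = pol (m := 1) y ![x] := by
      simp [pol]
    rw [this]
    exact pol_monic _ _
  have hcoef : ∀ x y : E, (X ^ 2 + C x * X + C y : E[X]).coeff 0 = y := by
    intro x y
    simp
  have hβ : IsIntegral ℤ β := by
    have h1 := Polynomial.isIntegral_coeff_of_dvd (R := ℤ) (pol b a)
      (X ^ 2 + C α * X + C β : E[X]) (pol_monic b a) (hmon _ _) (by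
        rw [hfac]
        exact dvd_mul_right _ _) 0
    rwa [hcoef] at h1
  have hβ' : IsIntegral ℤ (s β) := by
    have h1 := Polynomial.isIntegral_coeff_of_dvd (R := ℤ) (pol b a)
      (X ^ 2 + C (s α) * X + C (s β) : E[X]) (pol_monic b a) (hmon _ _) (by
        rw [hfac]
        exact dvd_mul_left _ _) 0
    rwa [hcoef] at h1
  obtain ⟨q, hq⟩ := hfix (β + s β) (by rw [map_add, hss, add_comm])
  have hq' : (q : E) = β + s β := by
    rw [← hq]
    exact (eq_ratCast _ q).symm
  have hqint : IsIntegral ℤ q := by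
    have h1 : IsIntegral ℤ (algebraMap ℚ E q) := by
      rw [eq_ratCast, hq']; exact hβ.add hβ'
    exact (isIntegral_algebraMap_iff (algebraMap ℚ E).injective).1 h1
  obtain ⟨u, hu⟩ := IsIntegrallyClosed.isIntegral_iff.1 hqint
  have huE : (u : E) = β + s β := by
    rw [← hq', ← hu]
    simp
  -- coefficients
  have hpol := hfac
  rw [pol_map, quad_mul] at hpol
  obtain ⟨e0, e1⟩ := pol_inj hpol
  have f0 : (b : E) = β * s β := e0
  have f1 : (a 0 : E) = α * s β + s α * β := congrFun e1 0
  have f2 : (a 1 : E) = α * s α + β + s β := congrFun e1 1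
  have f3 : (a 2 : E) = α + s α := congrFun e1 2
  refine ⟨u, ?_, ?_⟩
  · obtain ⟨φ⟩ : Nonempty (E →+* ℂ) := inferInstance
    set P : ℂ[X] := X ^ 2 + C (φ α) * X + C (φ β) with hP
    set P' : ℂ[X] := X ^ 2 + C (φ (s α)) * X + C (φ (s β)) with hP'
    have hmonC : ∀ x y : ℂ, (X ^ 2 + C x * X + C y : ℂ[X]).Monic := by
      intro x y
      have : (X ^ 2 + C x * X + C y : ℂ[X]) = pol (m := 1) y ![x] := by
        simp [pol]
      rw [this]
      exact pol_monic _ _
    have hfacC : (pol (b : ℂ) fun i => (a i : ℂ)) = P * P' := by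
      have h1 := congrArg (Polynomial.map φ) hfac
      rw [Polynomial.map_map, pol_map] at h1
      simp only [Polynomial.map_mul, Polynomial.map_add, Polynomial.map_pow, Polynomial.map_X,
        Polynomial.map_C] at h1
      have h2 : ∀ n : ℤ, (φ.comp (algebraMap ℤ E)) n = (n : ℂ) := fun n => by simp
      simp only [h2] at h1
      exact h1
    have hone : ∀ x y : ℂ, 1 ≤ (X ^ 2 + C x * X + C y : ℂ[X]).mahlerMeasure := fun x y =>
      Polynomial.one_le_mahlerMeasure_of_one_le_norm_leadingCoeff (by rw [(hmonC x y).leadingCoeff]; simp)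
    have hbd : ∀ x y : ℂ, ‖y‖ ≤ (X ^ 2 + C x * X + C y : ℂ[X]).mahlerMeasure := by
      intro x y
      have h1 := Polynomial.norm_coeff_le_choose_mul_mahlerMeasure 0 (X ^ 2 + C x * X + C y : ℂ[X])
      rw [Nat.choose_zero_right, Nat.cast_one, one_mul] at h1
      simpa using h1
    have hM : (pol (b : ℂ) fun i => (a i : ℂ)).mahlerMeasure ≤ 1 + 3 * H + |(b : ℝ)| := by
      refine (Polynomial.mahlerMeasure_le_sum_norm_coeff _).trans ?_
      rw [Polynomial.sum_over_range' _ (fun n => by simp) 5 (by rw [pol_natDegree]; norm_num)]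
      have c0 := pol_coeff_zero (b : ℂ) (fun i : Fin 3 => (a i : ℂ))
      have c1 := pol_coeff_succ (b : ℂ) (fun i : Fin 3 => (a i : ℂ)) 0
      have c2 := pol_coeff_succ (b : ℂ) (fun i : Fin 3 => (a i : ℂ)) 1
      have c3 := pol_coeff_succ (b : ℂ) (fun i : Fin 3 => (a i : ℂ)) 2
      have c4 : (pol (b : ℂ) fun i : Fin 3 => (a i : ℂ)).coeff 4 = 1 := by
        have h1 := (pol_monic (b : ℂ) fun i : Fin 3 => (a i : ℂ)).coeff_natDegree
        rwa [pol_natDegree] at h1
      simp only [Finset.sum_range_succ, Finset.sum_range_zero, zero_add]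
      simp only [Fin.val_zero, Fin.val_one, Fin.val_two, zero_add] at c1 c2 c3
      rw [c0, c1, c4]
      have c2' : (pol (b : ℂ) fun i : Fin 3 => (a i : ℂ)).coeff 2 = (a 1 : ℂ) := c2
      have c3' : (pol (b : ℂ) fun i : Fin 3 => (a i : ℂ)).coeff 3 = (a 2 : ℂ) := c3
      rw [c2', c3']
      have hai : ∀ i, ‖(a i : ℂ)‖ ≤ H := by
        intro i
        have h1 := mem_box.1 ha i
        rw [Complex.norm_intCast]
        exact_mod_cast h1
      have hbn : ‖(b : ℂ)‖ = |(b : ℝ)| := by rw [Complex.norm_intCast]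
      rw [hbn, norm_one]
      linarith [hai 0, hai 1, hai 2]
    rw [hfacC, Polynomial.mahlerMeasure_mul] at hM
    have h1 := hone (φ α) (φ β)
    have h2 := hone (φ (s α)) (φ (s β))
    have h3 := hbd (φ α) (φ β)
    have h4 := hbd (φ (s α)) (φ (s β))
    rw [← hP] at h1 h3
    rw [← hP'] at h2 h4
    have h5 : ‖φ β‖ ≤ 1 + 3 * H + |(b : ℝ)| := by nlinarith
    have h6 : ‖φ (s β)‖ ≤ 1 + 3 * H + |(b : ℝ)| := by nlinarith
    have h7 : |(u : ℝ)| ≤ ‖φ β‖ + ‖φ (s β)‖ := by
      have h8 : (u : ℂ) = φ β + φ (s β) := by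
        rw [← map_add, ← huE, map_intCast]
      have h9 : |(u : ℝ)| = ‖(u : ℂ)‖ := by rw [Complex.norm_intCast]
      rw [h9, h8]
      exact norm_add_le _ _
    have hb1 : (1 : ℝ) ≤ |(b : ℝ)| := by
      have : (1 : ℤ) ≤ |b| := Int.one_le_abs hb
      exact_mod_cast this
    have hH0 : (0 : ℝ) ≤ H := Nat.cast_nonneg H
    linarith
  · apply Int.cast_injective (α := E)
    push_cast
    rw [f0, f1, f2, f3, huE]
    ring

end Pool.Agent.H97.GF
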