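import Pool.Agent.H7.GF.Targets3

/-!
# MP_cd65c5_nt: integer points near the lines x = ± w √d
-/

open Pool.Agent.H7.GF

namespace Pool.Agent.H97.GF

/-- integers with absolute value in an interval -/
noncomputable def Wf (A B : ℝ) : Finset ℤ := Finset.Icc ⌈A⌉ ⌊B⌋ ∪ Finset.Icc (-⌊B⌋) (-⌈A⌉)

theorem card_Wf (A B : ℝ) (hAB : A ≤ B) : ((Wf A B).card : ℝ) ≤ 2 * (B - A + 1) := by
  have h1 : ((Finset.Icc ⌈A⌉ ⌊B⌋).card : ℝ) ≤ B - A + 1 := by
    rw [Int.card_Icc]
    by_cases h : 0 ≤ ⌊B⌋ + 1 - ⌈A⌉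
    · have e : (((⌊B⌋ + 1 - ⌈A⌉).toNat : ℤ) : ℝ) = ((⌊B⌋ + 1 - ⌈A⌉ : ℤ) : ℝ) := by
        rw [Int.toNat_of_nonneg h]
      have e2 : (((⌊B⌋ + 1 - ⌈A⌉).toNat : ℕ) : ℝ) = ((⌊B⌋ + 1 - ⌈A⌉ : ℤ) : ℝ) := by
        rw [← e]; push_cast; rfl
      rw [e2]
      push_cast
      linarith [Int.floor_le B, Int.le_ceil A]
    · rw [Int.toNat_of_nonpos (by omega)]
      simp only [Nat.cast_zero]
      linarith
  have h2 : ((Finset.Icc (-⌊B⌋) (-⌈A⌉)).card : ℝ) ≤ B - A + 1 := by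
    have : (Finset.Icc (-⌊B⌋) (-⌈A⌉)).card = (Finset.Icc ⌈A⌉ ⌊B⌋).card := by
      rw [Int.card_Icc, Int.card_Icc]
      congr 1
      ring
    rw [this]
    exact h1
  have h3 : ((Wf A B).card : ℝ) ≤ (Finset.Icc ⌈A⌉ ⌊B⌋).card + (Finset.Icc (-⌊B⌋) (-⌈A⌉)).card := by
    exact_mod_cast Finset.card_union_le _ _
  linarith

theorem mem_Wf {A B : ℝ} {w : ℤ} (h1 : A ≤ |(w : ℝ)|) (h2 : |(w : ℝ)| ≤ B) : w ∈ Wf A B := by
  unfold Wf
  rw [Finset.mem_union, Finset.mem_Icc, Finset.mem_Icc]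
  rcases le_total 0 (w : ℝ) with h | h
  · left
    rw [abs_of_nonneg h] at h1 h2
    exact ⟨Int.ceil_le.2 h1, Int.le_floor.2 h2⟩
  · right
    rw [abs_of_nonpos h] at h1 h2
    constructor
    · have : -w ≤ ⌊B⌋ := Int.le_floor.2 (by push_cast; exact h2)
      omega
    · have : ⌈A⌉ ≤ -w := Int.ceil_le.2 (by push_cast; exact h1)
      omega

theorem near {t y c : ℝ} (ht : 0 ≤ t) (hy : 1 ≤ y) (h : |t ^ 2 - y ^ 2| ≤ c) :
    |t - y| ≤ c / y := by
  rw [le_div_iff₀ (by linarith)]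
  have h1 : |t - y| * (t + y) ≤ c := by
    have e : |t - y| * (t + y) = |t ^ 2 - y ^ 2| := by
      have hp : 0 ≤ t + y := by linarith
      have e1 : t ^ 2 - y ^ 2 = (t - y) * (t + y) := by ring
      rw [e1, abs_mul, abs_of_nonneg hp]
    rw [e]
    exact h
  have h2 : 0 ≤ |t - y| := abs_nonneg _
  nlinarith

theorem i4b : T_I4B := by
  intro c hc
  refine ⟨34 * c + 5, fun d H hd hH => ?_⟩
  have hd' : (1 : ℝ) ≤ d := by exact_mod_cast hd
  have hH' : (2 : ℝ) ≤ H := by exact_mod_cast hH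
  set s : ℝ := Real.sqrt d with hs
  have hs1 : 1 ≤ s := by
    rw [hs, Real.one_le_sqrt]; exact hd'
  have hs0 : 0 < s := by linarith
  have hss : s ^ 2 = d := Real.sq_sqrt (by linarith)
  have hcH : 0 < c * H := by positivity
  let W : ℕ → Finset ℤ := fun n => Wf ((n - c * H / n) / s) ((n + c * H / n) / s)
  let W0 : Finset ℤ := Wf (-(c * H / s)) (c * H / s)
  let T : Finset (ℤ × ℤ) := ({0} : Finset ℤ) ×ˢ W0 ∪
    (Finset.Icc 1 H).biUnion fun n => ({(n : ℤ), -(n : ℤ)} : Finset ℤ) ×ˢ W n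
  have hsub : {x : ℤ × ℤ | |x.1| ≤ (H : ℤ) ∧ |((d * x.2 ^ 2 - x.1 ^ 2 : ℤ) : ℝ)| ≤ c * H} ⊆
      (T : Set (ℤ × ℤ)) := by
    rintro ⟨x, w⟩ ⟨hx, hw⟩
    simp only at hx hw
    push_cast at hw
    rw [← hss] at hw
    have hw' : |(s * |(w : ℝ)|) ^ 2 - |(x : ℝ)| ^ 2| ≤ c * H := by
      rw [mul_pow, sq_abs, sq_abs]; exact hw
    rw [Finset.mem_coe, Finset.mem_union]
    by_cases hx0 : x = 0
    · left
      rw [Finset.mem_product]
      refine ⟨by simp [hx0], ?_⟩
      refine mem_Wf ?_ ?_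
      · have : 0 ≤ |(w : ℝ)| := abs_nonneg _
        have : 0 < c * H / s := by positivity
        linarith
      · rw [hx0] at hw'
        simp only [Int.cast_zero, abs_zero, ne_eq, OfNat.ofNat_ne_zero, not_false_eq_true,
          zero_pow, sub_zero] at hw'
        rw [abs_of_nonneg (by positivity)] at hw'
        rw [le_div_iff₀ hs0]
        by_cases h1 : |(w : ℝ)| * s ≤ 1
        · nlinarith
        · rw [not_le] at h1
          nlinarith
    · right
      rw [Finset.mem_biUnion]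
      have hxn : 1 ≤ x.natAbs := Int.natAbs_pos.2 hx0
      refine ⟨x.natAbs, ?_, ?_⟩
      · rw [Finset.mem_Icc]
        refine ⟨hxn, ?_⟩
        have : ((x.natAbs : ℕ) : ℤ) ≤ H := by rw [Int.natCast_natAbs]; exact hx
        exact_mod_cast this
      · rw [Finset.mem_product]
        refine ⟨?_, ?_⟩
        · rw [Finset.mem_insert, Finset.mem_singleton]
          exact Int.natAbs_eq x
        · have hxr : (x.natAbs : ℝ) = |(x : ℝ)| := by
            rw [Nat.cast_natAbs]; push_cast; rfl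
          have hx1 : (1 : ℝ) ≤ |(x : ℝ)| := by
            rw [← hxr]; exact_mod_cast hxn
          have hd1 := near (show 0 ≤ s * |(w : ℝ)| by positivity) hx1 hw'
          rw [abs_le] at hd1
          refine mem_Wf ?_ ?_
          · rw [hxr, div_le_iff₀ hs0]; linarith [hd1.1]
          · rw [hxr, le_div_iff₀ hs0]; linarith [hd1.2]
  have hcard : ({x : ℤ × ℤ | |x.1| ≤ (H : ℤ) ∧
      |((d * x.2 ^ 2 - x.1 ^ 2 : ℤ) : ℝ)| ≤ c * H}.ncard : ℝ) ≤ T.card := by
    have := Set.ncard_le_ncard hsub T.finite_toSet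
    rw [Set.ncard_coe_finset] at this
    exact_mod_cast this
  refine hcard.trans ?_
  have hT : (T.card : ℝ) ≤ W0.card + ∑ n ∈ Finset.Icc 1 H, 2 * ((W n).card : ℝ) := by
    have h1 : T.card ≤ (({0} : Finset ℤ) ×ˢ W0).card + ((Finset.Icc 1 H).biUnion fun n =>
        ({(n : ℤ), -(n : ℤ)} : Finset ℤ) ×ˢ W n).card := Finset.card_union_le _ _
    have h2 : ((Finset.Icc 1 H).biUnion fun n => ({(n : ℤ), -(n : ℤ)} : Finset ℤ) ×ˢ W n).card ≤
        ∑ n ∈ Finset.Icc 1 H, 2 * (W n).card := by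
      refine Finset.card_biUnion_le.trans (Finset.sum_le_sum fun n _ => ?_)
      rw [Finset.card_product]
      exact Nat.mul_le_mul_right _ (Finset.card_le_two)
    rw [Finset.card_product, Finset.card_singleton, one_mul] at h1
    have h3 := h1.trans (Nat.add_le_add_left h2 _)
    exact_mod_cast h3
  refine hT.trans ?_
  have hW0 : (W0.card : ℝ) ≤ 2 * (2 * (c * H / s) + 1) := by
    have : 0 ≤ c * H / s := by positivity
    refine (card_Wf _ _ (by linarith)).trans (le_of_eq ?_)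
    ring
  have hWn : ∀ n ∈ Finset.Icc 1 H, 2 * ((W n).card : ℝ) ≤ 8 * (c * H / s) * (n : ℝ)⁻¹ + 4 := by
    intro n hn
    have hn1 : (1 : ℝ) ≤ n := by exact_mod_cast (Finset.mem_Icc.1 hn).1
    have h1 : ((n : ℝ) - c * H / n) / s ≤ (n + c * H / n) / s := by
      have : 0 ≤ c * H / (n : ℝ) := by positivity
      gcongr
      linarith
    have h2 := card_Wf _ _ h1
    have h3 : ((n : ℝ) + c * H / n) / s - ((n : ℝ) - c * H / n) / s = 2 * (c * H / s) * (n : ℝ)⁻¹ := by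
      field_simp
      ring
    rw [h3] at h2
    linarith
  have hsum : ∑ n ∈ Finset.Icc 1 H, 2 * ((W n).card : ℝ) ≤
      8 * (c * H / s) * (1 + Real.log H) + 4 * H := by
    refine (Finset.sum_le_sum hWn).trans ?_
    rw [Finset.sum_add_distrib, ← Finset.mul_sum, Finset.sum_const, Nat.card_Icc, nsmul_eq_mul]
    have h1 : ∑ n ∈ Finset.Icc 1 H, ((n : ℝ))⁻¹ ≤ 1 + Real.log H := by
      have := harmonic_le_one_add_log H
      rw [harmonic_eq_sum_Icc] at this
      push_cast at this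
      exact this
    have h2 : ((H + 1 - 1 : ℕ) : ℝ) = H := by simp
    rw [h2]
    have h3 : 0 ≤ 8 * (c * H / s) := by positivity
    nlinarith
  have hlog : (1 : ℝ) ≤ 2 * Real.log H := by
    have h1 : Real.log 2 ≤ Real.log H := Real.log_le_log (by norm_num) hH'
    have := Real.log_two_gt_d9
    linarith
  have hX : 0 ≤ c * H / s := by positivity
  have e : c * (H * Real.log H / s) = c * H / s * Real.log H := by ring
  have hfin : (34 * c + 5) * (H + H * Real.log H / s) =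
      34 * c * H + 5 * H + 34 * (c * H / s * Real.log H) + 5 * (H * Real.log H / s) := by ring
  rw [hfin]
  have h5 : 0 ≤ (H : ℝ) * Real.log H / s := by
    have : 0 ≤ Real.log H := by linarith
    positivity
  have h6 : c * H / s ≤ 2 * (c * H / s * Real.log H) := by nlinarith
  have h7 : (H : ℝ) ≤ c * H := by nlinarith
  nlinarith

end Pool.Agent.H97.GF
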