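import Pool.Agent.H7.GF.Targets1

/-!
# MP_cd65c5_nt: generators of the same field have the same Galois group
-/

set_option linter.unusedSectionVars false

open Polynomial NumberField Module IntermediateField
open Pool.Agent.H7.GF

namespace Pool.Agent.H97.GF

section general

variable {F K : Type} [Field F] [CharZero F] [Field K] [Algebra F K] [FiniteDimensional F K]

theorem emb {θ α : K} (hθ : F⟮θ⟯ = ⊤) :
    finrank F (minpoly F α).SplittingField ≤ finrank F (minpoly F θ).SplittingField := by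
  have hN : Normal F (minpoly F θ).SplittingField := Normal.of_isSplittingField (minpoly F θ)
  obtain ⟨ψ⟩ : Nonempty (K →ₐ[F] (minpoly F θ).SplittingField) := by
    refine nonempty_algHom_of_adjoin_splits (S := {θ}) ?_ hθ
    intro s hs
    rw [Set.mem_singleton_iff.1 hs]
    exact ⟨IsIntegral.of_finite F θ, SplittingField.splits _⟩
  have hs : ((minpoly F α).map (algebraMap F (minpoly F θ).SplittingField)).Splits := by
    have := hN.splits (ψ α)
    rwa [minpoly.algHom_eq ψ ψ.injective] at this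
  let φ := SplittingField.lift (minpoly F α) hs
  exact LinearMap.finrank_le_finrank_of_injective (f := φ.toLinearMap) φ.injective

theorem card_gal (θ : K) : Nat.card (minpoly F θ).Gal = finrank F (minpoly F θ).SplittingField := by
  have : IsGalois F (minpoly F θ).SplittingField :=
    IsGalois.of_separable_splitting_field (p := minpoly F θ)
      ((minpoly.irreducible (IsIntegral.of_finite F θ)).separable)
  exact IsGalois.card_aut_eq_finrank F (minpoly F θ).SplittingField

theorem gal_eq {θ α : K} (hθ : F⟮θ⟯ = ⊤) (hα : F⟮α⟯ = ⊤) :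
    Nat.card (minpoly F θ).Gal = Nat.card (minpoly F α).Gal := by
  rw [card_gal, card_gal]
  exact le_antisymm (emb hα) (emb hθ)

theorem equiv_of_minpoly {K' : Type} [Field K'] [Algebra F K'] [FiniteDimensional F K']
    {θ : K} {θ' : K'}
    (h : minpoly F θ = minpoly F θ') (hθ : F⟮θ⟯ = ⊤) (hθ' : F⟮θ'⟯ = ⊤) :
    Nonempty (K ≃ₐ[F] K') := by
  have h1 := IsIntegral.of_finite F θ
  have h2 := IsIntegral.of_finite F θ'
  let e1 : F⟮θ⟯ ≃ₐ[F] F⟮θ'⟯ := (adjoin.powerBasis h1).equivOfMinpoly (adjoin.powerBasis h2) (by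
    rw [adjoin.powerBasis_gen, adjoin.powerBasis_gen, minpoly_gen, minpoly_gen, h])
  exact ⟨((topEquiv.symm.trans (equivOfEq hθ.symm)).trans e1).trans
    ((equivOfEq hθ').trans topEquiv)⟩

end general

variable {K : Type} [Field K] [NumberField K]

theorem toQ_minpoly (θ : 𝓞 K) : toQ (minpoly ℤ θ) = minpoly ℚ (θ : K) := by
  rw [minpoly.isIntegrallyClosed_eq_field_fractions' ℚ (RingOfIntegers.isIntegral_coe θ)]
  have h : minpoly ℤ ((algebraMap (𝓞 K) K) θ) = minpoly ℤ θ :=
    minpoly.algebraMap_eq (RingOfIntegers.coe_injective) θ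
  unfold toQ
  rw [← h]
  rfl

theorem adjoin_top {θ : 𝓞 K} (h : (minpoly ℤ θ).natDegree = finrank ℚ K) : ℚ⟮(θ : K)⟯ = ⊤ := by
  rw [Field.primitive_element_iff_minpoly_natDegree_eq, ← toQ_minpoly, toQ,
    natDegree_map_eq_of_injective (RingHom.injective_int _), h]

theorem noInt_congr {K' : Type} [Field K'] [NumberField K'] (e : K ≃ₐ[ℚ] K') (h : NoInt K') :
    NoInt K := by
  intro F
  have hinj := IntermediateField.map_injective (e : K →ₐ[ℚ] K')
  rcases h (F.map (e : K →ₐ[ℚ] K')) with h1 | h1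
  · left
    apply hinj
    rw [h1, IntermediateField.map_bot]
  · right
    apply hinj
    rw [h1]
    symm
    rw [← AlgHom.fieldRange_eq_map]
    exact AlgHom.fieldRange_eq_top.2 e.surjective

theorem sful : T_SFUL := by
  rintro f g ⟨K, _, _, θ, α, rfl, rfl, hf, hg⟩
  have hθ := adjoin_top hf
  have hα := adjoin_top hg
  constructor
  · intro hN
    unfold NonFull at hN ⊢
    have e1 : Nat.card (toQ (minpoly ℤ θ)).Gal = Nat.card (toQ (minpoly ℤ α)).Gal := by
      rw [toQ_minpoly, toQ_minpoly]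
      exact gal_eq hθ hα
    rw [← e1, hg, ← hf]
    exact hN
  · rintro ⟨K', _, _, θ', h1, h2, h3⟩
    refine ⟨K, _, ‹_›, α, rfl, hg, ?_⟩
    have hθ' : ℚ⟮(θ' : K')⟯ = ⊤ := adjoin_top (by rw [h1]; exact h2)
    have hm : minpoly ℚ (θ : K) = minpoly ℚ (θ' : K') := by
      rw [← toQ_minpoly, ← toQ_minpoly, h1]
    obtain ⟨e⟩ := equiv_of_minpoly hm hθ hθ'
    exact noInt_congr e h3

end Pool.Agent.H97.GF
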